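import Pool.Agent.Lib.MP_edb5be_nt.PD.Iface

/-!
Project PD, module CHILD: every integer prime to 3 has a predecessor of comparable size in a given
residue class modulo `3 ^ k` which is not periodic.
-/

set_option autoImplicit false

namespace Pool.Agent.Lib.MP_edb5be_nt.PD.H84

open Finset Pool.Agent.Lib.MP_edb5be_nt.EX Pool.Agent.Lib.MP_edb5be_nt.PD

/-- `2 ^ (2 * 3 ^ k)` is one modulo `3 ^ (k + 1)`, but not modulo `3 ^ (k + 2)`. -/
theorem two_pow (k : ℕ) : ∃ s : ℤ, (2 : ℤ) ^ (2 * 3 ^ k) = 1 + 3 ^ (k + 1) * s ∧ ¬ (3 : ℤ) ∣ s := by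
  induction k with
  | zero => exact ⟨1, by norm_num, by norm_num⟩
  | succ k ih =>
    obtain ⟨s, hs, h3⟩ := ih
    refine ⟨s + 3 * (3 ^ k * s ^ 2 + 3 ^ (2 * k) * s ^ 3), ?_, ?_⟩
    · have e : 2 * 3 ^ (k + 1) = 2 * 3 ^ k * 3 := by ring
      rw [e, pow_mul, hs]
      ring
    · intro h
      exact h3 ((Int.dvd_add_left (dvd_mul_right _ _)).1 h)

theorem two_pow_mul (k j : ℕ) : (3 : ℤ) ^ (k + 1) ∣ 2 ^ (2 * 3 ^ k * j) - 1 := by
  obtain ⟨s, hs, -⟩ := two_pow k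
  rw [pow_mul, hs]
  have h : (1 + 3 ^ (k + 1) * s - 1) ∣ (1 + 3 ^ (k + 1) * s) ^ j - 1 ^ j := sub_dvd_pow_sub_pow _ _ _
  rw [one_pow] at h
  exact dvd_trans ⟨s, by ring⟩ h

/-- `2` is a primitive root. -/
theorem root (k : ℕ) : ∀ u : ℤ, ¬ (3 : ℤ) ∣ u →
    ∃ a : ℕ, 1 ≤ a ∧ a ≤ 2 * 3 ^ k ∧ (3 : ℤ) ^ (k + 1) ∣ 2 ^ a - u := by
  induction k with
  | zero =>
    intro u hu
    have h : u % 3 = 1 ∨ u % 3 = 2 := by omega
    rcases h with h | h
    · exact ⟨2, by norm_num, by norm_num, by norm_num; omega⟩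
    · exact ⟨1, by norm_num, by norm_num, by norm_num; omega⟩
  | succ k ih =>
    intro u hu
    obtain ⟨a, ha, hak, t, ht⟩ := ih u hu
    obtain ⟨s, hs, h3⟩ := two_pow k
    have h2 : ¬ (3 : ℤ) ∣ 2 ^ a := fun h => by
      have := Int.prime_three.dvd_of_dvd_pow h
      omega
    have h2s : ¬ (3 : ℤ) ∣ 2 ^ a * s := fun h => by
      rcases Int.prime_three.dvd_or_dvd h with h | h
      · exact h2 h
      · exact h3 h
    -- choose j with 3 ∣ t + 2 ^ a s j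
    obtain ⟨j, hj, hdj⟩ : ∃ j : ℕ, j ≤ 2 ∧ (3 : ℤ) ∣ t + 2 ^ a * s * j := by
      generalize 2 ^ a * s = v at h2s
      have hv : v % 3 = 1 ∨ v % 3 = 2 := by omega
      have ht3 : t % 3 = 0 ∨ t % 3 = 1 ∨ t % 3 = 2 := by omega
      rcases ht3 with h | h | h
      · exact ⟨0, by norm_num, by push_cast; omega⟩
      · rcases hv with hv | hv
        · exact ⟨2, by norm_num, by push_cast; omega⟩
        · exact ⟨1, by norm_num, by push_cast; omega⟩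
      · rcases hv with hv | hv
        · exact ⟨1, by norm_num, by push_cast; omega⟩
        · exact ⟨2, by norm_num, by push_cast; omega⟩
    refine ⟨a + 2 * 3 ^ k * j, by omega, ?_, ?_⟩
    · calc a + 2 * 3 ^ k * j ≤ 2 * 3 ^ k + 2 * 3 ^ k * 2 :=
          Nat.add_le_add hak (Nat.mul_le_mul_left _ hj)
        _ = 2 * 3 ^ (k + 1) := by ring
    · obtain ⟨q, hq⟩ := hdj
      have e1 : (3 : ℤ) ^ (k + 2) ∣ (1 + 3 ^ (k + 1) * s) ^ j - (1 + 3 ^ (k + 1) * s * j) := by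
        interval_cases j
        · exact ⟨0, by push_cast; ring⟩
        · exact ⟨0, by push_cast; ring⟩
        · refine ⟨3 ^ k * s ^ 2, ?_⟩
          push_cast
          ring
      obtain ⟨r, hr⟩ := e1
      refine ⟨2 ^ a * r + q, ?_⟩
      have hu' : u = 2 ^ a - 3 ^ (k + 1) * t := by rw [← ht]; ring
      have hr' : (1 + 3 ^ (k + 1) * s) ^ j = 1 + 3 ^ (k + 1) * s * j + 3 ^ (k + 2) * r := by
        rw [← hr]; ring
      rw [pow_add, pow_mul, hs, hr', hu']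
      calc (2 : ℤ) ^ a * (1 + 3 ^ (k + 1) * s * j + 3 ^ (k + 2) * r) - (2 ^ a - 3 ^ (k + 1) * t)
          = 3 ^ (k + 1) * (t + 2 ^ a * s * j) + 2 ^ a * (3 ^ (k + 2) * r) := by ring
        _ = 3 ^ (k + 1 + 1) * (2 ^ a * r + q) := by rw [hq]; ring

/-! ### Trajectories -/

theorem Tc_even (m : ℤ) : Tc (2 * m) = m := by
  unfold Tc
  rw [if_pos (by omega)]
  omega

theorem iter_pow (x : ℤ) (i : ℕ) : Tc^[i] (2 ^ i * x) = x := by
  induction i with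
  | zero => simp
  | succ i ih =>
    rw [Function.iterate_succ_apply]
    have : (2 : ℤ) ^ (i + 1) * x = 2 * (2 ^ i * x) := by ring
    rw [this, Tc_even, ih]

/-- The trajectory of `z`, if `3 z + 1 = 2 ^ a x`. -/
theorem iter_z {z x : ℤ} {a i j : ℕ} (hz : 3 * z + 1 = 2 ^ a * x) (hi : 1 ≤ i) (hij : i + j = a) :
    Tc^[i] z = 2 ^ j * x := by
  obtain ⟨i, rfl⟩ : ∃ i', i = i' + 1 := ⟨i - 1, by omega⟩
  have e : (2 : ℤ) ^ a * x = 2 * (2 ^ i * (2 ^ j * x)) := by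
    rw [← hij]
    ring
  have hodd : z % 2 ≠ 0 := by
    rw [e] at hz
    omega
  rw [Function.iterate_succ_apply]
  have h1 : Tc z = 2 ^ i * (2 ^ j * x) := by
    unfold Tc
    rw [if_neg hodd, hz, e]
    omega
  rw [h1, iter_pow]

theorem iter_mul {z : ℤ} {p : ℕ} (h : Tc^[p] z = z) (n : ℕ) : Tc^[p * n] z = z := by
  rw [Function.iterate_mul]
  exact Function.iterate_fixed h n

/-- At most one of the two predecessors is periodic. -/
theorem not_both {x z z' : ℤ} {a m : ℕ} (ha : 1 ≤ a) (hm : 1 ≤ m) (hz : 3 * z + 1 = 2 ^ a * x)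
    (hz' : 3 * z' + 1 = 2 ^ (m + a) * x) {p p' : ℕ} (hp : 1 ≤ p) (hp' : 1 ≤ p')
    (h : Tc^[p] z = z) (h' : Tc^[p'] z' = z') : False := by
  -- both are fixed by the iterate of order P = p p' a
  have h1 : Tc^[p * p' * a] z = z := by
    rw [mul_assoc]
    exact iter_mul h _
  have h1' : Tc^[p * p' * a] z' = z' := by
    have : p * p' * a = p' * (p * a) := by ring
    rw [this]
    exact iter_mul h' _
  have hPa : a ≤ p * p' * a := by
    have : 1 ≤ p * p' := Nat.one_le_iff_ne_zero.2 (by positivity)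
    exact Nat.le_mul_of_pos_left _ this
  set w : ℤ := 2 ^ a * x with hw
  have e1 : Tc^[m] z' = w := iter_z hz' hm rfl
  have h1w : Tc^[p * p' * a] w = w := by
    rw [← e1, ← Function.iterate_add_apply, Nat.add_comm, Function.iterate_add_apply, h1']
  have e2 : Tc^[a] w = x := iter_pow x a
  have e3 : Tc^[a] z = x := by
    have := iter_z hz ha (Nat.add_zero a)
    simpa using this
  have e4 : w = z := by
    obtain ⟨d, hd⟩ := Nat.exists_eq_add_of_le' hPa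
    calc w = Tc^[p * p' * a] w := h1w.symm
      _ = Tc^[d] (Tc^[a] w) := by rw [hd, Function.iterate_add_apply]
      _ = Tc^[d] (Tc^[a] z) := by rw [e2, e3]
      _ = Tc^[p * p' * a] z := by rw [hd, Function.iterate_add_apply]
      _ = z := h1
  -- parity
  obtain ⟨b, rfl⟩ : ∃ b, a = b + 1 := ⟨a - 1, by omega⟩
  have e5 : w = 2 * (2 ^ b * x) := by
    rw [hw]
    ring
  omega

theorem abs_le_of {z x : ℤ} {a : ℕ} (hx : x ≠ 0) (hz : 3 * z + 1 = 2 ^ a * x) :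
    |z| ≤ 2 ^ a * |x| := by
  have h1 : (1 : ℤ) ≤ |x| := Int.one_le_abs hx
  have h2 : (1 : ℤ) ≤ 2 ^ a := one_le_pow₀ (by norm_num)
  have h3 : |2 ^ a * x| = 2 ^ a * |x| := by
    rw [abs_mul, abs_of_pos (by positivity : (0 : ℤ) < 2 ^ a)]
  have h4 : (1 : ℤ) ≤ 2 ^ a * |x| := by nlinarith
  rw [← h3, ← hz]
  rw [← h3, ← hz] at h4
  rcases abs_cases z with ⟨h, h'⟩ | ⟨h, h'⟩ <;> rcases abs_cases (3 * z + 1) with ⟨g, g'⟩ | ⟨g, g'⟩ <;>
    omega

theorem child : ChildStatement := by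
  intro k y₀
  refine ⟨2 ^ (2 * 3 ^ k + (2 * 3 ^ k + 2 * 3 ^ k)), fun x hx => ?_⟩
  have hx0 : x ≠ 0 := fun h => hx (by rw [h]; exact dvd_zero _)
  obtain ⟨b, hb1, hb2, hb3⟩ := root k x hx
  obtain ⟨c, hc1, hc2, hc3⟩ := root k (1 + 3 * y₀) (by omega)
  obtain ⟨a, ha⟩ : ∃ a : ℕ, a + b = c + 2 * 3 ^ k := ⟨c + 2 * 3 ^ k - b, by omega⟩
  set m : ℕ := 2 * 3 ^ k with hm
  have hm1 : 1 ≤ m := by
    rw [hm]
    have : 1 ≤ 3 ^ k := Nat.one_le_pow _ _ (by norm_num)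
    omega
  -- the congruence
  have key : ∀ i : ℕ, (3 : ℤ) ^ (k + 1) ∣ 2 ^ (m * i + a) * x - (1 + 3 * y₀) := by
    intro i
    have h1 : (3 : ℤ) ^ (k + 1) ∣ 2 ^ (m * (i + 1)) - 1 := two_pow_mul k (i + 1)
    have e : (2 : ℤ) ^ (m * i + a) * x - (1 + 3 * y₀) =
        (2 ^ (m * (i + 1)) - 1) * 2 ^ c + (2 ^ c - (1 + 3 * y₀)) - 2 ^ (m * i + a) * (2 ^ b - x) := by
      have e1 : (2 : ℤ) ^ (m * i + a) * 2 ^ b = 2 ^ (m * (i + 1)) * 2 ^ c := by
        rw [← pow_add, ← pow_add]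
        congr 1
        rw [add_assoc, ha]
        ring
      rw [mul_sub, e1]
      ring
    rw [e]
    exact dvd_sub (dvd_add (Dvd.dvd.mul_right h1 _) hc3) (Dvd.dvd.mul_left hb3 _)
  have mk : ∀ i : ℕ, ∃ z : ℤ, 3 * z + 1 = 2 ^ (m * i + a) * x ∧ (3 : ℤ) ^ k ∣ z - y₀ := by
    intro i
    obtain ⟨q, hq⟩ := key i
    refine ⟨y₀ + 3 ^ k * q, ?_, ⟨q, by ring⟩⟩
    have : (2 : ℤ) ^ (m * i + a) * x = 1 + 3 * y₀ + 3 ^ (k + 1) * q := by rw [← hq]; ring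
    rw [this]
    ring
  have ha1 : 1 ≤ a := by omega
  have ham : a ≤ 2 * m := by omega
  obtain ⟨z, hz, hzk⟩ := mk 0
  obtain ⟨z', hz', hzk'⟩ := mk 1
  rw [Nat.mul_zero, Nat.zero_add] at hz
  rw [Nat.mul_one] at hz'
  have hK : ∀ i : ℕ, i ≤ m + (m + m) → (2 : ℤ) ^ i * |x| ≤ ((2 ^ (m + (m + m)) : ℕ) : ℤ) * |x| := by
    intro i hi
    push_cast
    exact mul_le_mul_of_nonneg_right (pow_le_pow_right₀ (by norm_num) hi) (abs_nonneg x)
  by_cases hper : ∃ p : ℕ, 1 ≤ p ∧ Tc^[p] z = z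
  · obtain ⟨p, hp, hpz⟩ := hper
    refine ⟨z', hzk', (abs_le_of hx0 hz').trans (hK _ (by omega)), ⟨m + a, ?_⟩, ?_⟩
    · have := iter_z hz' (by omega) (Nat.add_zero (m + a))
      simpa using this
    · intro p' hp' hpz'
      exact not_both ha1 hm1 hz hz' hp hp' hpz hpz'
  · refine ⟨z, hzk, (abs_le_of hx0 hz).trans (hK _ (by omega)), ⟨a, ?_⟩, ?_⟩
    · have := iter_z hz ha1 (Nat.add_zero a)
      simpa using this
    · intro p hp h
      exact hper ⟨p, hp, h⟩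

end Pool.Agent.Lib.MP_edb5be_nt.PD.H84
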